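import Mathlib
import Pool.Agent.Lib.P74a576.Solv

set_option autoImplicit false

namespace Pool.Agent.Results.MP_74a576_co.UnboundedRatio

open Filter Topology

-- A pebbling step on `G` from the configuration `A` to the configuration `B`: along an edge
-- `uv` two pebbles are taken off `u` and one pebble is put on `v`.
def Step {V : Type} [DecidableEq V] (G : SimpleGraph V) (A B : V → ℕ) : Prop :=
  ∃ u v : V, G.Adj u v ∧ 2 ≤ A u ∧
    B = Function.update (Function.update A u (A u - 2)) v (A v + 1)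

-- `C` is `k`-fold solvable.
def Solvable {V : Type} [DecidableEq V] (G : SimpleGraph V) (k : ℕ) (C : V → ℕ) : Prop :=
  ∀ r : V, ∃ D : V → ℕ, Relation.ReflTransGen (Step G) C D ∧ k ≤ D r

-- `optPeb G k` is the minimum size of a `k`-fold solvable configuration.
noncomputable def optPeb {V : Type} [Fintype V] [DecidableEq V] (G : SimpleGraph V) (k : ℕ) : ℕ :=
  sInf {s : ℕ | ∃ C : V → ℕ, Solvable G k C ∧ ∑ v, C v = s}

section basic

variable {V : Type} [Fintype V] [DecidableEq V] (G : SimpleGraph V)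

omit [Fintype V] in
lemma solvable_const (k : ℕ) : Solvable G k (fun _ => k) :=
  fun _ => ⟨_, Relation.ReflTransGen.refl, le_rfl⟩

lemma set_nonempty (k : ℕ) : {s : ℕ | ∃ C : V → ℕ, Solvable G k C ∧ ∑ v, C v = s}.Nonempty :=
  ⟨_, _, solvable_const G k, rfl⟩

lemma optPeb_le {k : ℕ} {C : V → ℕ} (h : Solvable G k C) : optPeb G k ≤ ∑ v, C v :=
  Nat.sInf_le ⟨C, h, rfl⟩

lemma optPeb_spec (k : ℕ) : ∃ C : V → ℕ, Solvable G k C ∧ ∑ v, C v = optPeb G k :=
  Nat.sInf_mem (set_nonempty G k)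

lemma subadd (k l : ℕ) : optPeb G (k + l) ≤ optPeb G k + optPeb G l := by
  obtain ⟨C, hC, h1⟩ := optPeb_spec G k
  obtain ⟨D, hD, h2⟩ := optPeb_spec G l
  have h3 : Solvable G (k + l) (C + D) := by
    intro r
    obtain ⟨C', a1, a2⟩ := hC r
    obtain ⟨D', b1, b2⟩ := hD r
    exact ⟨C' + D', Lib.P74a576.rtg_add a1 b1, Nat.add_le_add a2 b2⟩
  have h4 := optPeb_le G h3
  rw [← h1, ← h2, ← Finset.sum_add_distrib]
  exact h4

lemma exists_limit : ∃ L : ℝ, Tendsto (fun k : ℕ => (optPeb G k : ℝ) / k) atTop (𝓝 L) ∧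
    ∀ k : ℕ, k ≠ 0 → L ≤ (optPeb G k : ℝ) / k := by
  have hs : Subadditive (fun k : ℕ => (optPeb G k : ℝ)) := by
    intro k l
    have h := (Nat.cast_le (α := ℝ)).2 (subadd G k l)
    rwa [Nat.cast_add] at h
  have hb : BddBelow (Set.range fun k : ℕ => (optPeb G k : ℝ) / k) := by
    refine ⟨0, ?_⟩
    rintro _ ⟨k, rfl⟩
    positivity
  exact ⟨hs.lim, hs.tendsto_lim hb, fun k hk => hs.lim_le_div hb hk⟩

omit [Fintype V] in
lemma step_sum [Fintype V] {A B : V → ℕ} (h : Step G A B) : ∑ v, B v ≤ ∑ v, A v := by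
  obtain ⟨u, v, huv, h2, rfl⟩ := h
  have := Lib.P74a576.move_sum u v huv.ne h2 (fun _ => 1)
  simp only [mul_one] at this
  omega

lemma le_optPeb [Nonempty V] (k : ℕ) : k ≤ optPeb G k := by
  obtain ⟨C, hC, hs⟩ := optPeb_spec G k
  obtain ⟨r⟩ := (inferInstance : Nonempty V)
  obtain ⟨D, h1, h2⟩ := hC r
  have h3 : ∑ v, D v ≤ ∑ v, C v := by
    clear h2
    induction h1 with
    | refl => exact le_rfl
    | tail _ hm ih => exact (step_sum G hm).trans ih
  calc k ≤ D r := h2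
    _ ≤ ∑ v, D v := Finset.single_le_sum (f := D) (fun _ _ => Nat.zero_le _) (Finset.mem_univ r)
    _ ≤ ∑ v, C v := h3
    _ = optPeb G k := hs

lemma one_le_lim [Nonempty V] {L : ℝ}
    (h : Tendsto (fun k : ℕ => (optPeb G k : ℝ) / k) atTop (𝓝 L)) : 1 ≤ L := by
  refine ge_of_tendsto h ?_
  filter_upwards [eventually_gt_atTop 0] with k hk
  rw [le_div_iff₀ (by exact_mod_cast hk), one_mul]
  exact_mod_cast le_optPeb G k

end basic

-- number of vertices of the graph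
lemma card_bound (e : ℕ) (he : 2 ≤ e) :
    Fintype.card (Lib.P74a576.Vt (2 ^ (2 * e + 2)) (2 ^ (2 * e + 1))
      (2 ^ (2 * e + 1) * 2 ^ (2 * e + 1) + 1) (2 * e + 1)) ≤ 2 ^ ((e + 1) * 2 ^ (2 * e + 3)) := by
  set m := 2 ^ (2 * e + 2) with hm
  set n := 2 ^ (2 * e + 1) with hn
  set K := n * n + 1 with hK
  have hY : Fintype.card (Lib.P74a576.Y m n K) ≤ m ^ n * K := by
    rw [Fintype.card_prod, Fintype.card_fin]
    apply Nat.mul_le_mul_right
    rw [Fintype.card_embedding_eq, Fintype.card_fin, Fintype.card_fin]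
    exact Nat.descFactorial_le_pow m n
  have hV : Fintype.card (Lib.P74a576.Vt m n K (2 * e + 1))
      = m + (Fintype.card (Lib.P74a576.Y m n K)
        + Fintype.card (Lib.P74a576.Y m n K) * (n * (2 * e + 1))) := by
    simp only [Fintype.card_sum, Fintype.card_prod, Fintype.card_fin]
  rw [hV]
  have hn0 : 1 ≤ n := Nat.one_le_two_pow
  have hq : 2 * e + 1 ≤ n := (Nat.lt_two_pow_self).le
  have hKle : K ≤ 2 ^ (4 * e + 3) := by
    have : n * n = 2 ^ (4 * e + 2) := by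
      rw [hn, ← pow_add]; congr 1; ring
    rw [hK, this]
    have h1 : 1 ≤ 2 ^ (4 * e + 2) := Nat.one_le_two_pow
    have h2 : (2 : ℕ) ^ (4 * e + 3) = 2 ^ (4 * e + 2) + 2 ^ (4 * e + 2) := by ring
    omega
  have hmn : m ^ n = 2 ^ ((2 * e + 2) * n) := by
    rw [hm, ← pow_mul]
  have h1 : 1 + n * (2 * e + 1) ≤ 2 ^ (4 * e + 3) := by
    have a1 : n * (2 * e + 1) ≤ n * n := Nat.mul_le_mul_left n hq
    omega
  have h2 : m ≤ 2 ^ ((2 * e + 2) * n + (4 * e + 3) + (4 * e + 3)) := by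
    rw [hm]
    apply Nat.pow_le_pow_right (by norm_num)
    have : 2 * e + 2 ≤ (2 * e + 2) * n := Nat.le_mul_of_pos_right _ hn0
    omega
  have h3 : Fintype.card (Lib.P74a576.Y m n K)
        + Fintype.card (Lib.P74a576.Y m n K) * (n * (2 * e + 1))
      ≤ 2 ^ ((2 * e + 2) * n + (4 * e + 3) + (4 * e + 3)) := by
    calc Fintype.card (Lib.P74a576.Y m n K)
        + Fintype.card (Lib.P74a576.Y m n K) * (n * (2 * e + 1))
        = Fintype.card (Lib.P74a576.Y m n K) * (1 + n * (2 * e + 1)) := by ring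
      _ ≤ (m ^ n * 2 ^ (4 * e + 3)) * 2 ^ (4 * e + 3) :=
          Nat.mul_le_mul (hY.trans (Nat.mul_le_mul_left _ hKle)) h1
      _ = 2 ^ ((2 * e + 2) * n + (4 * e + 3) + (4 * e + 3)) := by
          rw [hmn, mul_assoc, ← pow_add, ← pow_add]
          congr 1
          ring
  have h4 : m + (Fintype.card (Lib.P74a576.Y m n K)
        + Fintype.card (Lib.P74a576.Y m n K) * (n * (2 * e + 1)))
      ≤ 2 ^ ((2 * e + 2) * n + (4 * e + 3) + (4 * e + 3) + 1) := by
    rw [pow_succ]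
    omega
  refine h4.trans (Nat.pow_le_pow_right (by norm_num) ?_)
  have h5 : 2 ^ (2 * e + 3) = 4 * n := by rw [hn]; ring
  have h6 : 32 ≤ n := by
    rw [hn]
    calc 32 = 2 ^ 5 := by norm_num
      _ ≤ 2 ^ (2 * e + 1) := Nat.pow_le_pow_right (by norm_num) (by omega)
  rw [h5]
  nlinarith [Nat.mul_le_mul_left e h6]

lemma main (e : ℕ) (he : 2 ≤ e) :
    ∃ (V : Type) (_ : Fintype V) (_ : DecidableEq V) (G : SimpleGraph V), G.Connected ∧
      Fintype.card V ≤ 2 ^ ((e + 1) * 2 ^ (2 * e + 3)) ∧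
      optPeb G (2 ^ (4 * e + 4)) ≤ 2 ^ (7 * e + 8) ∧ 2 ^ (4 * e + 2) < optPeb G 1 := by
  classical
  let m := 2 ^ (2 * e + 2)
  let n := 2 ^ (2 * e + 1)
  let q := 2 * e + 1
  let K := n * 2 ^ q + 1
  have hmn : m = 2 * n := by
    simp only [m, n]
    rw [pow_succ]; ring
  have hnpos : 2 ≤ n := by
    simp only [n]
    calc 2 = 2 ^ 1 := rfl
      _ ≤ 2 ^ (2 * e + 1) := Nat.pow_le_pow_right (by norm_num) (by omega)
  have hq : m ≤ 2 ^ (q + 1) := Nat.pow_le_pow_right (by norm_num) (by simp only [q]; omega)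
  refine ⟨Lib.P74a576.Vt m n K q, inferInstance, inferInstance, Lib.P74a576.Gr m n K q,
    Lib.P74a576.connected hnpos (by omega) (Nat.succ_pos _), card_bound e he, ?_, ?_⟩
  · have h := optPeb_le (Lib.P74a576.Gr m n K q) (k := 2 ^ (4 * e + 4))
      (C := Lib.P74a576.stack (2 ^ (5 * e + 6))) (fun r => Lib.P74a576.solvable e K r)
    rw [Lib.P74a576.stack_sum] at h
    refine h.trans (le_of_eq ?_)
    simp only [m]
    rw [← pow_add]; congr 1; ring
  · obtain ⟨E, hE1, hE2⟩ := optPeb_spec (Lib.P74a576.Gr m n K q) 1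
    rw [← hE2]
    by_contra hcon
    push Not at hcon
    have h1 : n * 2 ^ q = 2 ^ (4 * e + 2) := by
      simp only [n, q]
      rw [← pow_add]; congr 1; ring
    obtain ⟨y0, hy0⟩ := Lib.P74a576.lower (m := m) (n := n) (K := K) (q := q) hmn hq E
      (by rw [h1]; exact hcon) (Nat.lt_succ_self _)
    obtain ⟨E', a1, a2⟩ := hE1 (Lib.P74a576.tgt y0)
    have := hy0 E' a1
    omega

theorem result :
    ∃ C : ℝ, ∀ R : ℝ, 1 ≤ R →
      ∃ (V : Type) (_ : Fintype V) (_ : DecidableEq V) (G : SimpleGraph V) (L : ℝ),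
        G.Connected ∧
        (Fintype.card V : ℝ) ≤ Real.exp (C * R ^ 2 * Real.log (R + 1)) ∧
        Tendsto (fun k : ℕ => (optPeb G k : ℝ) / k) atTop (𝓝 L) ∧ 1 ≤ L ∧
        R * L < optPeb G 1 ∧ L ^ 4 < 1024 * (optPeb G 1 : ℝ) ^ 3 := by
  refine ⟨2560, ?_⟩
  intro R hR
  have hex : ∃ k : ℕ, R ≤ 2 ^ k := by
    obtain ⟨k, hk⟩ := pow_unbounded_of_one_lt R (by norm_num : (1 : ℝ) < 2)
    exact ⟨k, hk.le⟩
  obtain ⟨k, hk1, hk2⟩ : ∃ k : ℕ, R ≤ 2 ^ k ∧ (2 : ℝ) ^ k ≤ 2 * R := by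
    classical
    refine ⟨Nat.find hex, Nat.find_spec hex, ?_⟩
    rcases h : Nat.find hex with _ | k
    · simp; linarith
    · have h1 := Nat.find_min hex (m := k) (by omega)
      push Not at h1
      rw [pow_succ]; linarith
  obtain ⟨e, he⟩ : ∃ e : ℕ, e = k + 2 := ⟨_, rfl⟩
  have hek : (e : ℝ) = k + 2 := by rw [he]; push_cast; ring
  have he2 : (2 : ℝ) ^ e = 4 * 2 ^ k := by rw [he]; ring
  obtain ⟨V, i1, i2, G, hconn, hcard, hup, hlow⟩ := main e (by omega)
  clear he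
  obtain ⟨L, hL1, hL2⟩ := exists_limit G
  have := hconn.nonempty
  have hL3 := one_le_lim G hL1
  refine ⟨V, i1, i2, G, L, hconn, ?_, hL1, hL3, ?_⟩
  · have hR0 : 0 < R := by linarith
    have hlog2 : 0 < Real.log 2 := Real.log_pos (by norm_num)
    have hlogR : Real.log 2 ≤ Real.log (R + 1) :=
      Real.log_le_log (by norm_num) (by linarith)
    have hkl : (k : ℝ) * Real.log 2 ≤ Real.log 2 + Real.log (R + 1) := by
      have h1 : Real.log ((2 : ℝ) ^ k) ≤ Real.log (2 * R) :=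
        Real.log_le_log (by positivity) hk2
      rw [Real.log_pow, Real.log_mul (by norm_num) hR0.ne'] at h1
      have h2 : Real.log R ≤ Real.log (R + 1) := Real.log_le_log hR0 (by linarith)
      linarith
    have hc : (Fintype.card V : ℝ) ≤ (2 : ℝ) ^ ((e + 1) * 2 ^ (2 * e + 3)) := by
      have h := (Nat.cast_le (α := ℝ)).2 hcard
      rwa [Nat.cast_pow, Nat.cast_ofNat] at h
    refine hc.trans ?_
    rw [← Real.rpow_natCast, Real.rpow_def_of_pos (by norm_num)]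
    apply Real.exp_le_exp.2
    rw [Nat.cast_mul, Nat.cast_add, Nat.cast_one, Nat.cast_pow, Nat.cast_ofNat]
    have h8 : (2 : ℝ) ^ (2 * e + 3) ≤ 512 * R ^ 2 := by
      have : (2 : ℝ) ^ (2 * e + 3) = 8 * ((2 : ℝ) ^ e) ^ 2 := by ring
      rw [this, he2]
      have h9 : ((2 : ℝ) ^ k) ^ 2 ≤ (2 * R) ^ 2 := by
        apply pow_le_pow_left₀ (by positivity) hk2
      nlinarith
    have h10 : Real.log 2 * ((e : ℝ) + 1) ≤ 5 * Real.log (R + 1) := by
      have : Real.log 2 * ((e : ℝ) + 1) = (k : ℝ) * Real.log 2 + 3 * Real.log 2 := by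
        rw [hek]; ring
      rw [this]; linarith
    calc Real.log 2 * (((e : ℝ) + 1) * 2 ^ (2 * e + 3))
        = (Real.log 2 * ((e : ℝ) + 1)) * 2 ^ (2 * e + 3) := by ring
      _ ≤ (5 * Real.log (R + 1)) * (512 * R ^ 2) := by
          apply mul_le_mul h10 h8 (by positivity)
          linarith
      _ = 2560 * R ^ 2 * Real.log (R + 1) := by ring
  · have h1 := hL2 (2 ^ (4 * e + 4)) (pow_ne_zero _ (by norm_num))
    have h2 : (optPeb G (2 ^ (4 * e + 4)) : ℝ) ≤ (2 : ℝ) ^ (7 * e + 8) := by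
      have h := (Nat.cast_le (α := ℝ)).2 hup
      rwa [Nat.cast_pow, Nat.cast_ofNat] at h
    have h3 : (2 : ℝ) ^ (4 * e + 2) < optPeb G 1 := by
      have h := (Nat.cast_lt (α := ℝ)).2 hlow
      rwa [Nat.cast_pow, Nat.cast_ofNat] at h
    have h4 : L ≤ 2 ^ (3 * e + 4) := by
      refine h1.trans ?_
      rw [Nat.cast_pow, Nat.cast_ofNat, div_le_iff₀ (by positivity), ← pow_add]
      refine h2.trans (le_of_eq ?_)
      congr 1; ring
    have hL0 : (0 : ℝ) ≤ 2 ^ (3 * e + 4) := by positivity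
    have hR4 : 4 * R ≤ 2 ^ e := by rw [he2]; linarith
    refine ⟨?_, ?_⟩
    swap
    · calc L ^ 4 ≤ (2 ^ (3 * e + 4)) ^ 4 := pow_le_pow_left₀ (by linarith) h4 4
        _ = 1024 * (2 ^ (4 * e + 2)) ^ 3 := by
          rw [show (1024 : ℝ) = 2 ^ 10 by norm_num, ← pow_mul, ← pow_mul, ← pow_add]
          congr 1; ring
        _ < 1024 * (optPeb G 1 : ℝ) ^ 3 := by
          have h5 : ((2 : ℝ) ^ (4 * e + 2)) ^ 3 < (optPeb G 1 : ℝ) ^ 3 :=
            pow_lt_pow_left₀ h3 (by positivity) (by norm_num)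
          linarith
    calc R * L ≤ R * 2 ^ (3 * e + 4) := mul_le_mul_of_nonneg_left h4 (by linarith)
      _ ≤ (4 * R) * 2 ^ (3 * e + 4) / 4 := le_of_eq (by ring)
      _ ≤ 2 ^ e * 2 ^ (3 * e + 4) / 4 := by
          apply div_le_div_of_nonneg_right _ (by norm_num)
          exact mul_le_mul_of_nonneg_right hR4 hL0
      _ = 2 ^ (4 * e + 2) := by ring
      _ < optPeb G 1 := h3

end Pool.Agent.Results.MP_74a576_co.UnboundedRatio
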